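import Pool.Agent.Lib_MP_d88dfe_an.Main

/-!
# The Devron property of the pentagram map in space
-/

namespace Pool.Agent.Results.MP_d88dfe_an.Devron

open Pool.Agent.Lib_MP_d88dfe_an

/-- Let `n ≥ 4`, let `A` be a `2n`-periodic polygon in `RP^3` whose faces (spans of three
consecutive vertices) pass alternately through `P` and `Q`, and let `B = F^(n-3)(A)` be defined.
Then the odd-indexed vertices of `B` lie in one plane, and so do the even-indexed ones. -/
theorem result (n : ℕ) (hn : 4 ≤ n) (A B : ℤ → RP3) (hA : ∀ i, A (i + 2 * n) = A i)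
    (P Q : RP3)
    (hP : ∀ i, Even i → P.submodule ≤ span3 (A (i - 1)) (A i) (A (i + 1)))
    (hQ : ∀ i, Odd i → Q.submodule ≤ span3 (A (i - 1)) (A i) (A (i + 1)))
    (hB : IsIterate (n - 3) A B) : Coplanar B Odd ∧ Coplanar B Even :=
  main n hn A B hA P Q hP hQ hB

end Pool.Agent.Results.MP_d88dfe_an.Devron
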